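import Mathlib

/-!
# A surjective polynomial map with characteristic-polynomial-type properties

The map `f : ℝ³ → ℝ³`, `f (x, y, z) = (x - z, x y, x² z - x y²)` is surjective and satisfies
(a) no constant terms, (b) `deg p_i ≤ i`, (c) infinite zero fibre, (d) any `k < 3` of the
components together involve at least `k + 1` indeterminates, (e) all nonzero coefficients are `±1`.
-/

set_option autoImplicit false

open MvPolynomial

namespace Pool.Agent.Results.MP_07d99b_al.SurjectiveMap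

/-- Conditions (a)-(e) of the problem for the polynomial map `ℝⁿ → ℝⁿ` with components
`p 0, …, p (n-1)` (so `p i` is `p_{i+1}` of the problem). -/
structure CharPolyType (n : ℕ) (p : Fin n → MvPolynomial (Fin n) ℝ) : Prop where
  /-- (a) `p_i (0, …, 0) = 0`. -/
  a : ∀ i, eval (fun _ => (0 : ℝ)) (p i) = 0
  /-- (b) `deg p_i ≤ i` for `i = 1, …, n`. -/
  b : ∀ i, (p i).totalDegree ≤ (i : ℕ) + 1
  /-- (c) the fibre over `0` is infinite. -/
  c : {x : Fin n → ℝ | ∀ i, eval x (p i) = 0}.Infinite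
  /-- (d) any `k` of the components, `1 ≤ k < n`, together involve at least `k + 1` distinct
  indeterminates. -/
  d : ∀ S : Finset (Fin n), S.Nonempty → S.card < n →
    S.card + 1 ≤ (S.biUnion fun i => (p i).vars).card
  /-- (e) every nonzero coefficient is `1` or `-1`. -/
  e : ∀ i m, coeff m (p i) ≠ 0 → coeff m (p i) = 1 ∨ coeff m (p i) = -1

/-- The polynomial map `(x - z, x y, x² z - x y²)`. -/
noncomputable def P : Fin 3 → MvPolynomial (Fin 3) ℝ :=
  ![X 0 - X 2, X 0 * X 1, X 0 ^ 2 * X 2 - X 0 * X 1 ^ 2]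

theorem P0 : P 0 = X 0 - X 2 := rfl
theorem P1 : P 1 = X 0 * X 1 := rfl
theorem P2 : P 2 = X 0 ^ 2 * X 2 - X 0 * X 1 ^ 2 := rfl

theorem mem_vars_of_pderiv {p : MvPolynomial (Fin 3) ℝ} {i : Fin 3} (x : Fin 3 → ℝ)
    (h : eval x (pderiv i p) ≠ 0) : i ∈ p.vars := by
  by_contra hi
  rw [pderiv_eq_zero_of_notMem_vars hi, map_zero] at h
  exact h rfl

theorem vars_P : ∀ i : Fin 3, (![{0, 2}, {0, 1}, {0, 1, 2}] : Fin 3 → Finset (Fin 3)) i ⊆
    (P i).vars := by
  intro i j hj
  apply mem_vars_of_pderiv (fun k => if k = 0 then 1 else if k = 1 then 1 else 3)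
  fin_cases i <;> fin_cases j <;>
    simp [P0, P1, P2, Derivation.leibniz, pderiv_X, smul_eq_mul] at hj ⊢
  all_goals norm_num

theorem X_eq (i : Fin 3) : (X i : MvPolynomial (Fin 3) ℝ) = monomial (Finsupp.single i 1) 1 := rfl

theorem coeff_P : ∀ i m, coeff m (P i) ≠ 0 → coeff m (P i) = 1 ∨ coeff m (P i) = -1 := by
  intro i m
  have h2 : (P 2) = monomial (Finsupp.single 0 2 + Finsupp.single 2 1) 1 -
      monomial (Finsupp.single 0 1 + Finsupp.single 1 2) 1 := by
    rw [P2, X_pow_eq_monomial, X_pow_eq_monomial, X_eq, X_eq, monomial_mul, monomial_mul]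
    simp
  have h1 : (P 1) = monomial (Finsupp.single 0 1 + Finsupp.single 1 1) 1 := by
    rw [P1, X_eq, X_eq, monomial_mul]
    simp
  have h0 : (P 0) = monomial (Finsupp.single 0 1) 1 - monomial (Finsupp.single 2 1) 1 := rfl
  have n0 : (Finsupp.single 0 1 : Fin 3 →₀ ℕ) ≠ Finsupp.single 2 1 := by
    intro h
    have := DFunLike.congr_fun h 0
    simp at this
  have n2 : (Finsupp.single 0 2 + Finsupp.single 2 1 : Fin 3 →₀ ℕ) ≠
      Finsupp.single 0 1 + Finsupp.single 1 2 := by
    intro h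
    have := DFunLike.congr_fun h 0
    simp at this
  fin_cases i
  · change coeff m (P 0) ≠ 0 → coeff m (P 0) = 1 ∨ coeff m (P 0) = -1
    rw [h0, coeff_sub, coeff_monomial, coeff_monomial]
    split_ifs with ha hb hb
    · exact absurd (ha.trans hb.symm) n0
    all_goals simp
  · change coeff m (P 1) ≠ 0 → coeff m (P 1) = 1 ∨ coeff m (P 1) = -1
    rw [h1, coeff_monomial]
    split_ifs <;> simp
  · change coeff m (P 2) ≠ 0 → coeff m (P 2) = 1 ∨ coeff m (P 2) = -1
    rw [h2, coeff_sub, coeff_monomial, coeff_monomial]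
    split_ifs with ha hb hb
    · exact absurd (ha.trans hb.symm) n2
    all_goals simp

theorem deg_P : ∀ i : Fin 3, (P i).totalDegree ≤ (i : ℕ) + 1 := by
  intro i
  fin_cases i
  · change (X 0 - X 2 : MvPolynomial (Fin 3) ℝ).totalDegree ≤ 1
    refine (totalDegree_sub _ _).trans ?_
    simp
  · change (X 0 * X 1 : MvPolynomial (Fin 3) ℝ).totalDegree ≤ 2
    refine (totalDegree_mul _ _).trans ?_
    simp
  · change (X 0 ^ 2 * X 2 - X 0 * X 1 ^ 2 : MvPolynomial (Fin 3) ℝ).totalDegree ≤ 3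
    refine (totalDegree_sub _ _).trans (max_le ?_ ?_)
    · refine (totalDegree_mul _ _).trans ?_
      simp
    · refine (totalDegree_mul _ _).trans ?_
      simp

/-- Solving `x⁴ - s x³ - b x - a² = 0` with `x ≠ 0` when `a ≠ 0`. -/
theorem quartic (s a b : ℝ) (ha : a ≠ 0) : ∃ x : ℝ, x ≠ 0 ∧ x ^ 4 - s * x ^ 3 - b * x - a ^ 2 = 0 := by
  set M : ℝ := 1 + |s| + |b| + a ^ 2 with hM
  have hs := abs_nonneg s
  have hb := abs_nonneg b
  have hs' := le_abs_self s
  have hb' := le_abs_self b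
  have ha2 : 0 < a ^ 2 := by positivity
  have hM1 : 1 ≤ M := by nlinarith
  have hpos : 0 ≤ M ^ 4 - s * M ^ 3 - b * M - a ^ 2 := by
    have hM3 : M ≤ M ^ 3 := by nlinarith [sq_nonneg (M - 1), sq_nonneg M]
    have h3 : 1 ≤ M ^ 3 := by linarith
    have e1 : s * M ^ 3 ≤ |s| * M ^ 3 := by
      apply mul_le_mul_of_nonneg_right hs' (by positivity)
    have e2 : b * M ≤ |b| * M ^ 3 := by
      calc b * M ≤ |b| * M := by apply mul_le_mul_of_nonneg_right hb' (by positivity)
        _ ≤ |b| * M ^ 3 := by apply mul_le_mul_of_nonneg_left hM3 hb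
    have e3 : a ^ 2 ≤ a ^ 2 * M ^ 3 := by nlinarith
    have e4 : M ^ 4 = (1 + |s| + |b| + a ^ 2) * M ^ 3 := by rw [← hM]; ring
    nlinarith
  have hcont : ContinuousOn (fun x : ℝ => x ^ 4 - s * x ^ 3 - b * x - a ^ 2) (Set.Icc 0 M) := by
    fun_prop
  have hmem : (0 : ℝ) ∈ Set.Icc ((fun x : ℝ => x ^ 4 - s * x ^ 3 - b * x - a ^ 2) 0)
      ((fun x : ℝ => x ^ 4 - s * x ^ 3 - b * x - a ^ 2) M) := by
    constructor
    · simp only []
      nlinarith
    · exact hpos
  obtain ⟨x, -, hx⟩ := intermediate_value_Icc (by linarith) hcont hmem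
  refine ⟨x, ?_, hx⟩
  rintro rfl
  simp only [] at hx
  nlinarith

/-- Solving `x³ - s x² = b`. -/
theorem cubic (s b : ℝ) : ∃ x : ℝ, x ^ 3 - s * x ^ 2 = b := by
  set M : ℝ := 1 + |s| + |b| with hM
  have hs := abs_nonneg s
  have hb := abs_nonneg b
  have hs' := le_abs_self s
  have hb' := le_abs_self b
  have hs'' := neg_abs_le s
  have hb'' := neg_abs_le b
  have hM1 : 1 ≤ M := by linarith
  have hM2 : 1 ≤ M ^ 2 := by nlinarith
  have hcont : ContinuousOn (fun x : ℝ => x ^ 3 - s * x ^ 2) (Set.Icc (-M) M) := by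
    fun_prop
  have hmem : b ∈ Set.Icc ((fun x : ℝ => x ^ 3 - s * x ^ 2) (-M))
      ((fun x : ℝ => x ^ 3 - s * x ^ 2) M) := by
    constructor
    · simp only []
      have e1 : (-M) ^ 3 - s * (-M) ^ 2 = -((M + s) * M ^ 2) := by ring
      rw [e1]
      have e2 : |b| ≤ (M + s) * M ^ 2 := by
        have : |b| + 1 ≤ M + s := by linarith
        nlinarith
      linarith
    · simp only []
      have e1 : M ^ 3 - s * M ^ 2 = (M - s) * M ^ 2 := by ring
      rw [e1]
      have e2 : |b| ≤ (M - s) * M ^ 2 := by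
        have : |b| + 1 ≤ M - s := by linarith
        nlinarith
      linarith
  obtain ⟨x, -, hx⟩ := intermediate_value_Icc (by linarith) hcont hmem
  exact ⟨x, hx⟩

theorem eval_P0 (x : Fin 3 → ℝ) : eval x (P 0) = x 0 - x 2 := by simp [P0]
theorem eval_P1 (x : Fin 3 → ℝ) : eval x (P 1) = x 0 * x 1 := by simp [P1]
theorem eval_P2 (x : Fin 3 → ℝ) : eval x (P 2) = x 0 ^ 2 * x 2 - x 0 * x 1 ^ 2 := by simp [P2]

theorem surj_P : Function.Surjective (fun (x : Fin 3 → ℝ) (i : Fin 3) => eval x (P i)) := by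
  intro t
  have key : ∃ x y z : ℝ, x - z = t 0 ∧ x * y = t 1 ∧ x ^ 2 * z - x * y ^ 2 = t 2 := by
    by_cases h : t 1 = 0
    · obtain ⟨x, hx⟩ := cubic (t 0) (t 2)
      refine ⟨x, 0, x - t 0, by ring, by rw [h]; ring, ?_⟩
      rw [← hx]; ring
    · obtain ⟨x, hx0, hx⟩ := quartic (t 0) (t 1) (t 2) h
      refine ⟨x, t 1 / x, x - t 0, by ring, by field_simp, ?_⟩
      field_simp
      linear_combination hx
  obtain ⟨x, y, z, h0, h1, h2⟩ := key
  refine ⟨![x, y, z], funext fun i => ?_⟩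
  fin_cases i
  · change eval ![x, y, z] (P 0) = t 0
    rw [eval_P0]; simpa using h0
  · change eval ![x, y, z] (P 1) = t 1
    rw [eval_P1]; simpa using h1
  · change eval ![x, y, z] (P 2) = t 2
    rw [eval_P2]; simpa using h2

/-- There is a surjective polynomial map `ℝ³ → ℝ³`, namely `(x - z, x y, x² z - x y²)`, satisfying
all of (a)-(e). -/
theorem result : CharPolyType 3 P ∧
    Function.Surjective (fun (x : Fin 3 → ℝ) (i : Fin 3) => eval x (P i)) := by
  refine ⟨⟨?_, deg_P, ?_, ?_, coeff_P⟩, surj_P⟩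
  · intro i
    fin_cases i
    · change eval _ (P 0) = 0
      rw [eval_P0]; simp
    · change eval _ (P 1) = 0
      rw [eval_P1]; simp
    · change eval _ (P 2) = 0
      rw [eval_P2]; simp
  · refine Set.infinite_of_injective_forall_mem (f := fun y : ℝ => (![0, y, 0] : Fin 3 → ℝ)) ?_ ?_
    · intro y y' h
      have := congrFun h 1
      simpa using this
    · intro y i
      fin_cases i
      · change eval _ (P 0) = 0
        rw [eval_P0]; simp
      · change eval _ (P 1) = 0
        rw [eval_P1]; simp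
      · change eval _ (P 2) = 0
        rw [eval_P2]; simp
  · intro S hS hS3
    have h1 : (S.biUnion (![{0, 2}, {0, 1}, {0, 1, 2}] : Fin 3 → Finset (Fin 3))) ⊆
        S.biUnion fun i => (P i).vars := Finset.biUnion_mono fun i _ => vars_P i
    refine le_trans ?_ (Finset.card_le_card h1)
    have key : ∀ S : Finset (Fin 3), S.Nonempty → S.card < 3 → S.card + 1 ≤
        (S.biUnion (![{0, 2}, {0, 1}, {0, 1, 2}] : Fin 3 → Finset (Fin 3))).card := by decide
    exact key S hS hS3

end Pool.Agent.Results.MP_07d99b_al.SurjectiveMap
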